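import Pool.Agent.H355R3.UF.Stmts

set_option autoImplicit false

/-! # Task `J` of the project UF (unique factorization of subformations) -/

namespace Pool.Agent.H291R3.UF

open H355R3 H355R3.UF RegularWreathProduct

lemma isPGroup_of_quot {p : ℕ} [Fact p.Prime] {L : Type} [Group L] [Finite L]
    (N : Subgroup L) [N.Normal] (hN : IsPGroup p N) (hQ : IsPGroup p (L ⧸ N)) : IsPGroup p L := by
  obtain ⟨a, ha⟩ := IsPGroup.iff_card.mp hN
  obtain ⟨b, hb⟩ := IsPGroup.iff_card.mp hQ
  refine IsPGroup.iff_card.mpr ⟨b + a, ?_⟩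
  rw [Subgroup.card_eq_card_quotient_mul_card_subgroup N, ha, hb, pow_add]

theorem taskJ : H355R3.UF.TaskJ := by
  intro p _ A B C D hAB hA hC K₀ _ _ hK₀ hW K _ _ hK
  classical
  -- a minimal group of `C` which is not a `p`-group
  have hex : ∃ n : ℕ, ∃ (L : Type) (_ : Group L) (_ : Finite L), C.Mem L ∧ ¬ IsPGroup p L ∧
      Nat.card L = n := by
    by_contra hno
    apply hC
    intro M _ _ hM
    by_contra hM2
    exact hno ⟨Nat.card M, M, inferInstance, inferInstance, hM, hM2, rfl⟩
  obtain ⟨L, hLg, hLf, hLC, hLp, hLn⟩ := Nat.find_spec hex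
  have hmin : ∀ (M : Type) [Group M] [Finite M], C.Mem M → ¬ IsPGroup p M →
      Nat.card L ≤ Nat.card M := by
    intro M _ _ h1 h2
    rw [hLn]
    exact Nat.find_min' hex ⟨M, inferInstance, inferInstance, h1, h2, rfl⟩
  have hnt : Nontrivial L := by
    by_contra h
    rw [not_nontrivial_iff_subsingleton] at h
    exact hLp (IsPGroup.of_card (n := 0) (by simp))
  have hbot : ∀ N : Subgroup L, N.Normal → IsPGroup p N → N = ⊥ := by
    intro N hN hNp
    by_contra hne
    have h1 : C.Mem (L ⧸ N) := C.quot N hLC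
    have h2 : ¬ IsPGroup p (L ⧸ N) := fun h => hLp (isPGroup_of_quot N hNp h)
    have h3 := hmin (L ⧸ N) h1 h2
    have h4 := Subgroup.card_eq_card_quotient_mul_card_subgroup N
    have h5 : 1 < Nat.card N := by
      rw [Subgroup.one_lt_card_iff_ne_bot]
      exact hne
    have h6 : 0 < Nat.card (L ⧸ N) := Nat.card_pos
    nlinarith
  -- the group `K × K₀`
  have hP : D.Mem (K × K₀) := by
    refine D.mem_of_two (MonoidHom.fst K K₀) (MonoidHom.snd K K₀) Prod.fst_surjective
      Prod.snd_surjective ?_ hK hK₀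
    rintro ⟨a, b⟩ h1 h2
    exact Prod.ext h1 h2
  have hM := hW (K × K₀) hP ⟨MonoidHom.snd K K₀, Prod.snd_surjective⟩ L hLC
  rw [← hAB, Formation.mul_mem_iff] at hM
  set R := B.residual (RegularWreathProduct L (K × K₀)) with hRdef
  have hRn : R.Normal := by rw [hRdef]; infer_instance
  have hRp : IsPGroup p R := hA R hM
  -- the part in the base group
  set R0 : Subgroup (RegularWreathProduct L (K × K₀)) :=
    R ⊓ (rightHom : RegularWreathProduct L (K × K₀) →* K × K₀).ker with hR0def
  have hR0n : R0.Normal := by rw [hR0def]; infer_instance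
  have hR0 : ∀ r ∈ R0, r.right = 1 := fun r hr => hr.2
  have hR0p : IsPGroup p R0 := hRp.to_le inf_le_left
  have hc : IsPGroup p (coord R0 hR0 1).range :=
    hR0p.of_surjective (coord R0 hR0 1).rangeRestrict (MonoidHom.rangeRestrict_surjective _)
  have hc1 := hbot _ (coord_range_normal R0 hR0n hR0 1) hc
  have hR0b : R0 = ⊥ := eq_bot_of_coord R0 hR0n hR0 hc1
  have hRb : R = ⊥ := by
    apply eq_bot_of_inf_base R hRn
    intro k hk hk1
    have : k ∈ R0 := ⟨hk, hk1⟩
    rw [hR0b, Subgroup.mem_bot] at this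
    exact this
  have hB : B.Mem (RegularWreathProduct L (K × K₀)) := (B.residual_eq_bot_iff).1 hRb
  have hB2 : B.Mem (K × K₀) := B.mem_of_surjective rightHom rightHom_surj hB
  exact B.mem_of_surjective (MonoidHom.fst K K₀) Prod.fst_surjective hB2

end Pool.Agent.H291R3.UF
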